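import Pool.Agent.BE01.DefsC

/-!
# Squad BEB (MP_be01ff_an): balls and half balls of `ℝ³`. Definitions. Paper: note 4343.
-/

namespace Pool.Agent.BEB

open Set Filter Topology MeasureTheory
open scoped InnerProductSpace ENNReal
open Pool.Agent.BE01

noncomputable section

/-- The half ball `|x| < R`, `x₂ > 0` (coordinates `x₀, x₁, x₂`). -/
def HB (R : ℝ) : Set (En 3) := {x | ‖x‖ < R ∧ 0 < x 2}

/-- Polynomials in three variables. -/
abbrev Pl := MvPolynomial (Fin 3) ℝ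

/-- The value of a polynomial. -/
def ev (P : Pl) (x : En 3) : ℝ := MvPolynomial.eval (fun i => x i) P

/-- The Laplacian of a polynomial. -/
def lap (P : Pl) : Pl := ∑ i : Fin 3, MvPolynomial.pderiv i (MvPolynomial.pderiv i P)

/-- The polynomial `|x|²`. -/
def rho : Pl := ∑ i : Fin 3, MvPolynomial.X i ^ 2

/-- The polynomial is odd in `x₂`. -/
def OddP (P : Pl) : Prop := ∀ m ∈ P.support, Odd (m 2)

/-- `H` is a harmonic polynomial, homogeneous of degree `l`, odd in `x₂`. -/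
def Har (l : ℕ) (H : Pl) : Prop := H.IsHomogeneous l ∧ lap H = 0 ∧ OddP H

/-- The coefficients of the spherical Bessel functions:
`cf l k = (-1)^k / ∏_{j=1}^{k} 2j(2j+2l+1)`. -/
def cf (l k : ℕ) : ℝ :=
  (-1) ^ k / ∏ j ∈ Finset.range k, (2 * ((j : ℝ) + 1) * (2 * ((j : ℝ) + 1) + 2 * l + 1))

/-- The functions `h_l(x) = (2l+1)!! j_l(x) / x^l`. -/
def hs (l : ℕ) (x : ℝ) : ℝ := ∑' k : ℕ, cf l k * x ^ (2 * k)

/-- There is a strong solution with the sharp rate (version with `Lp`). -/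
def Rate (Ω : Set (En 3)) (a α : ℝ) : Prop :=
  ∃ (u v w : ℝ → Lp ℝ 2 (mu Ω)) (G : ℝ → Lp (En 3) 2 (mu Ω)), IsSol Ω a α u v w G ∧
    ∃ c C : ℝ, 0 < c ∧ ∀ t, 0 ≤ t → c * (1 + t) ^ (-(2 / α)) ≤ energy Ω v G t ∧
      energy Ω v G t ≤ C * (1 + t) ^ (-(2 / α))

end

end Pool.Agent.BEB
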