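import Pool.Agent.BEB.Defs

/-!
# Squad BEB (MP_be01ff_an): balls and half balls of `ℝ³`. Statements. Paper: note 4343.
-/

namespace Pool.Agent.BEB

open Set Filter Topology MeasureTheory
open scoped InnerProductSpace ENNReal
open Pool.Agent.BE01

noncomputable section

/-! ## Arithmetic -/

/-- HLI: the theorem of Hermite and Lindemann. -/
def HliStmt : Prop := ∀ β : ℂ, β ≠ 0 → IsAlgebraic ℚ β → ¬ IsAlgebraic ℚ (Complex.exp β)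

/-- CFS: summability and recursion of the coefficients. -/
def CfsStmt : Prop := ∀ (l : ℕ), (∀ x : ℝ, Summable fun k : ℕ => |cf l k| * |x| ^ (2 * k)) ∧
  cf l 0 = 1 ∧ (∀ k : ℕ, 2 * ((k : ℝ) + 1) * (2 * ((k : ℝ) + 1) + 2 * l + 1) * cf l (k + 1) =
    - cf l k) ∧
  (∀ x : ℝ, Tendsto (fun K : ℕ => ∑ k ∈ Finset.range (K + 1), cf l k * x ^ (2 * k)) atTop
    (𝓝 (hs l x))) ∧
  ∀ x : ℝ, Tendsto (fun K : ℕ => cf l K * x ^ (2 * K)) atTop (𝓝 0)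

/-- ARI: the zero of `h_1` and the absence of resonances. -/
def AriStmt : Prop := ∃ x0 : ℝ, 0 < x0 ∧ hs 1 x0 = 0 ∧ (∀ l : ℕ, l ≠ 1 → hs l x0 ≠ 0) ∧
  ∀ n l : ℕ, 2 ≤ n → hs l (n * x0) ≠ 0

/-! ## Polynomials -/

/-- LPF: the Laplacian of `|x|^(2c) H`. -/
def LpfStmt : Prop := ∀ (l c : ℕ) (H : Pl), H.IsHomogeneous l → lap H = 0 →
  lap (rho ^ (c + 1) * H) =
    MvPolynomial.C (2 * ((c : ℝ) + 1) * (2 * ((c : ℝ) + 1) + 2 * l + 1)) * (rho ^ c * H)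

/-- ODP: stability of the odd polynomials. -/
def OdpStmt : Prop := (∀ P Q : Pl, OddP P → OddP Q → OddP (P + Q)) ∧
  (∀ (c : ℝ) (P : Pl), OddP P → OddP (MvPolynomial.C c * P)) ∧
  (∀ P : Pl, OddP P → OddP (rho * P)) ∧ (∀ P : Pl, OddP P → OddP (lap P)) ∧
  (∀ P : Pl, OddP P → ∃ Q : Pl, P = MvPolynomial.X 2 * Q) ∧ OddP (MvPolynomial.X 2) ∧
  ∀ Q : Pl, (∀ m ∈ Q.support, Even (m 2)) → OddP (MvPolynomial.X 2 * Q)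

/-- FIS: decomposition of the odd polynomials. -/
def FisStmt : Prop := ∀ P : Pl, OddP P → P ∈ Submodule.span ℝ
  {Q : Pl | ∃ (b l : ℕ) (H : Pl), Har l H ∧ Q = rho ^ b * H}

/-- HAO: the harmonic odd polynomials of degree one. -/
def HaoStmt : Prop := ∀ H : Pl, Har 1 H → ∃ c : ℝ, H = MvPolynomial.C c * MvPolynomial.X 2

/-- SUR: the operator `Δ + μ` is onto on the odd polynomials. -/
def SurStmt : Prop := ∀ (μ : ℝ) (P : Pl), μ ≠ 0 → OddP P →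
  ∃ ψ : Pl, OddP ψ ∧ lap ψ + MvPolynomial.C μ * ψ = P

/-! ## Analysis -/

/-- COF: functions vanishing on the boundary of the half ball, by cut off. -/
def CofStmt : Prop := ∀ (R C : ℝ) (ψ : En 3 → ℝ), 0 < R →
  ContDiff ℝ ((⊤ : ℕ∞) : WithTop ℕ∞) ψ →
  (∀ x ∈ HB R, |ψ x| ≤ C * (R ^ 2 - ‖x‖ ^ 2) ∧ |ψ x| ≤ C * x 2) →
  ∃ (f : Lp ℝ 2 (mu (HB R))) (G : Lp (En 3) 2 (mu (HB R))), (f, G) ∈ H10 (HB R) ∧
    f =ᵐ[mu (HB R)] ψ ∧ G =ᵐ[mu (HB R)] gradient ψ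

/-- EVP: values of polynomials. -/
def EvpStmt : Prop := (∀ P : Pl, ContDiff ℝ ((⊤ : ℕ∞) : WithTop ℕ∞) (ev P)) ∧
  (∀ (P : Pl) (x : En 3) (i : Fin 3), gradient (ev P) x i = ev (MvPolynomial.pderiv i P) x) ∧
  (∀ P Q x, ev (P + Q) x = ev P x + ev Q x) ∧ (∀ P Q x, ev (P * Q) x = ev P x * ev Q x) ∧
  (∀ c x, ev (MvPolynomial.C c) x = c) ∧ (∀ x, ev rho x = ‖x‖ ^ 2) ∧
  (∀ i x, ev (MvPolynomial.X i) x = x i) ∧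
  ∀ (P : Pl) (R : ℝ), ∃ C : ℝ, ∀ x : En 3, ‖x‖ ≤ R → |ev P x| ≤ C

/-- IBP: integration by parts. -/
def IbpStmt : Prop := ∀ (Ω : Set (En 3)) (u : Lp ℝ 2 (mu Ω)) (G : Lp (En 3) 2 (mu Ω)) (P : Pl),
  Dom Ω → (u, G) ∈ H10 Ω →
  ∫ x, ⟪G x, gradient (ev P) x⟫_ℝ ∂(mu Ω) = - ∫ x, u x * ev (lap P) x ∂(mu Ω)

/-- WEX: the weak equation can be tested with `H^1_0`. -/
def WexStmt : Prop := ∀ (Ω : Set (En 3)) (v f : Lp ℝ 2 (mu Ω)) (G F : Lp (En 3) 2 (mu Ω)),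
  Dom Ω → (∀ ψ, Tst Ω ψ →
    ∫ x, ⟪G x, gradient ψ x⟫_ℝ ∂(mu Ω) = ∫ x, f x * ψ x ∂(mu Ω)) → (v, F) ∈ H10 Ω →
  ∫ x, ⟪G x, F x⟫_ℝ ∂(mu Ω) = ∫ x, f x * v x ∂(mu Ω)

/-- DEN: density of the odd polynomials. -/
def DenStmt : Prop := ∀ (R : ℝ) (u : Lp ℝ 2 (mu (HB R))), 0 < R →
  (∀ P : Pl, OddP P → ∫ x, u x * ev P x ∂(mu (HB R)) = 0) → u = 0

/-- ORT: an eigenfunction is orthogonal to `(Δ + μ) ψ`, `ψ` odd and `0` on the sphere. -/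
def OrtStmt : Prop := ∀ (R l : ℝ) (u : Lp ℝ 2 (mu (HB R))) (Q : Pl), 0 < R →
  IsEig (HB R) l u → OddP Q →
  ∫ x, u x * ev (lap ((rho - MvPolynomial.C (R ^ 2)) * Q) +
    MvPolynomial.C l * ((rho - MvPolynomial.C (R ^ 2)) * Q)) x ∂(mu (HB R)) = 0

/-- SPE: the spectrum of the half ball. -/
def SpeStmt : Prop := ∀ (R x : ℝ), 0 < R → 0 < x →
  ((∀ l : ℕ, hs l x ≠ 0) → ∀ u, IsEig (HB R) ((x / R) ^ 2) u → u = 0) ∧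
  ((∀ l : ℕ, l ≠ 1 → hs l x ≠ 0) → ∀ u φ, IsEig (HB R) ((x / R) ^ 2) u →
    IsEig (HB R) ((x / R) ^ 2) φ → φ ≠ 0 → ∃ c : ℝ, u = c • φ)

/-- PHI: the eigenfunction. -/
def PhiStmt : Prop := ∀ (R x : ℝ), 0 < R → 0 < x → hs 1 x = 0 →
  ∃ φ : Lp ℝ 2 (mu (HB R)), φ ≠ 0 ∧ IsEig (HB R) ((x / R) ^ 2) φ

/-- HBR: the half ball. -/
def HbrStmt : Prop := ∀ (R a : ℝ) (p : ℕ), 0 < R → 0 < a → 1 ≤ p →
  Rate (HB R) a ((2 * p : ℕ) : ℝ)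

/-- REF: reflection. -/
def RefStmt : Prop := ∀ (R a α : ℝ), 0 < R → 0 < α → Rate (HB R) a α →
  Rate (Metric.ball (0 : En 3) R) a α

end

end Pool.Agent.BEB
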